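import Pool.Agent.P.MP_1ae9d9_co.Upper

set_option autoImplicit false

namespace Pool.Agent.Results.MP_1ae9d9_co.Subexponential

open Pool.Agent.P.MP_1ae9d9_co

/-- Maker forces a `k`-hole within `(2k²)^(⌊√(8k)⌋+1) = k^(O(√k))` rounds, so `r(k) = 2^(o(k))`. -/
theorem result :
    (∀ k : ℕ, 3 ≤ k →
      MakerWins k (rounds k) ∅ ∧ rounds k ≤ (2 * k ^ 2) ^ (Nat.sqrt (8 * k) + 1)) ∧
    (∀ c : ℝ, 1 < c → ∀ᶠ k : ℕ in Filter.atTop, (rounds k : ℝ) < c ^ k) := by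
  have key : ∀ k : ℕ, 3 ≤ k →
      MakerWins k (rounds k) ∅ ∧ rounds k ≤ (2 * k ^ 2) ^ (Nat.sqrt (8 * k) + 1) := by
    intro k hk
    have h := wins_upper k (by omega)
    exact ⟨Nat.sInf_mem (s := {r | MakerWins k r ∅}) ⟨_, h⟩, Nat.sInf_le h⟩
  refine ⟨key, fun c hc => ?_⟩
  filter_upwards [bound_subexp hc, Filter.eventually_ge_atTop 3] with k h hk
  exact lt_of_le_of_lt (by exact_mod_cast (key k hk).2) h

end Pool.Agent.Results.MP_1ae9d9_co.Subexponential
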